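import Pool.Agent.Mg.F4f0bc7.G50bbf0
import Pool.Agent.Mg.F4f0bc7.G1fbd18
import Pool.Agent.Mg.F4f0bc7.G2b7e7f

namespace Pool.Agent.Results.MP_4f0bc7_gt.DegreeCriterion

open Pool.Agent.MP_4f0bc7_gt Polynomial

/-- A degree criterion for the non-existence of harmonic metrics on the complex line for
polynomial differentials in every rank, with its main instance, which occurs in
every rank `n ≥ 3`. -/
theorem result :
    (∀ (n : ℕ) (ρ : ℝ) (q : ℕ → ℂ[X]) (D G : ℂ[X][X]) (g : ℂ[X]) (a M : ℕ),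
      0 ≤ ρ → (∀ j, 2 ≤ j → j ≤ n → ((q j).natDegree : ℝ) ≤ j * ρ) →
      D.Monic → D ∣ (hitchin n q).charpoly → (hitchin n q).charpoly ∣ D ^ M →
      G.Monic → G.natDegree < n → g ≠ 0 → 1 ≤ a →
      (hitchin n q).charpoly ∣ D ^ a - C g * G →
      (a : ℝ) * (ρ * ((D.natDegree : ℝ) - 1) - 1) ≤ g.natDegree →
      ¬ ∃ H, IsHarmonicMetric Set.univ (fun z => hitchin n fun j => (q j).eval z) H) ∧
    (∀ (n : ℕ) (c : ℕ → ℂ) (f : ℂ[X]) (l : ℂ), f ≠ 0 →
      2 ≤ (hitchin n c).charpoly.rootMultiplicity l →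
      f.natDegree * (n - (hitchin n c).charpoly.rootMultiplicity l) <
        (hitchin n c).charpoly.rootMultiplicity l →
      ¬ ∃ H, IsHarmonicMetric Set.univ (fun z => hitchin n fun j => c j * f.eval z ^ j) H) ∧
    ∀ n : ℕ, 3 ≤ n → ∃ c : ℕ → ℂ, (∃ j, 2 ≤ j ∧ j ≤ n ∧ c j ≠ 0) ∧
      (hitchin n c).charpoly.rootMultiplicity 1 = n - 1 :=
  ⟨crit', no_metric_mult crit' scale2, exists_example exCh rootS⟩

end Pool.Agent.Results.MP_4f0bc7_gt.DegreeCriterion
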