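import Pool.Agent.Mg.F4f0bc7.G50bbf0
import Pool.Agent.Mg.F4f0bc7.G1fbd18
import Pool.Agent.Mg.F4f0bc7.Gcc5b82
import Pool.Agent.Mg.F4f0bc7.G2b7e7f

namespace Pool.Agent.Results.MP_4f0bc7_gt.InvariantIff

open Pool.Agent.MP_4f0bc7_gt
open scoped ContDiff

/-- Invariant differentials `q_j = c_j dz^j` on the complex line and `q_j = c_j (dz/z)^j` on the
punctured line, every rank: a harmonic metric exists exactly when `θ(c)` has `n` distinct
eigenvalues; the other case occurs with `q ≠ 0` in every rank `n ≥ 3`. -/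
theorem result :
    (∀ (n : ℕ) (c : ℕ → ℂ),
      ((hitchin n c).charpoly.Separable →
        (∃ H, IsHarmonicMetric Set.univ (fun _ => hitchin n c) H ∧
          ∀ a b, ContDiffOn ℝ ∞ (fun z => H z a b) Set.univ) ∧
        (∃ H, IsHarmonicMetric {0}ᶜ (fun z => hitchin n fun j => c j / z ^ j) H ∧
          ∀ a b, ContDiffOn ℝ ∞ (fun z => H z a b) {0}ᶜ)) ∧
      (¬ (hitchin n c).charpoly.Separable →
        (¬ ∃ H, IsHarmonicMetric Set.univ (fun _ => hitchin n c) H) ∧
        (¬ ∃ H, IsHarmonicMetric {0}ᶜ (fun z => hitchin n fun j => c j / z ^ j) H))) ∧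
    ∀ n : ℕ, 3 ≤ n → ∃ c : ℕ → ℂ, (∃ j, 2 ≤ j ∧ j ≤ n ∧ c j ≠ 0) ∧
      ¬ (hitchin n c).charpoly.Separable := by
  refine ⟨fun n c => ⟨fun hs => ⟨?_, ?_⟩, fun hs => ⟨const_none n c hs, logpole_none n c hs⟩⟩,
    fun n hn => ?_⟩
  · simpa only [one_pow, mul_one] using exists_metric isOpen_univ (f := fun _ => 1)
      (differentiableOn_const 1) (fun _ _ => one_ne_zero) c hs
  · simpa only [inv_pow, ← div_eq_mul_inv] using exists_metric isOpen_compl_singleton
      (f := fun z => z⁻¹) differentiableOn_inv (fun _ hz => inv_ne_zero hz) c hs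
  · obtain ⟨c, h1, h2⟩ := exists_example exCh rootS n hn
    refine ⟨c, h1, fun hs => ?_⟩
    have := Polynomial.rootMultiplicity_le_one_of_separable hs 1
    omega

end Pool.Agent.Results.MP_4f0bc7_gt.InvariantIff
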