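import Pool.Agent.MP_4f0bc7_gt.Od.All

namespace Pool.Agent.Results.MP_4f0bc7_gt.MonomialLine

open Pool.Agent.MP_4f0bc7_gt

/-- The differentials `q_j = c_j (z^d dz)^j` on the complex line, every rank and every degree:
a harmonic metric exists exactly when every multiple eigenvalue of `θ(c)` has multiplicity `m` with
`m ≤ d (n - m)`, and we are not in the case `d = 1`, `n ≥ 3`, two distinct eigenvalues. -/
theorem result (n d : ℕ) (c : ℕ → ℂ) :
    (∃ H, IsHarmonicMetric Set.univ (fun z => hitchin n fun j => c j * (z ^ d) ^ j) H) ↔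
      (∀ x, 2 ≤ (hitchin n c).charpoly.rootMultiplicity x →
        (hitchin n c).charpoly.rootMultiplicity x ≤
          d * (n - (hitchin n c).charpoly.rootMultiplicity x)) ∧
      ¬ (d = 1 ∧ 3 ≤ n ∧ (hitchin n c).charpoly.roots.toFinset.card = 2) :=
  Od.line_Main Od.core Od.sNil Od.sStabC Od.sTwo (Od.sReg Od.b2) Od.fin n d c

end Pool.Agent.Results.MP_4f0bc7_gt.MonomialLine
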