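import Pool.Agent.MP_4f0bc7_gt.Od.All

namespace Pool.Agent.Results.MP_4f0bc7_gt.PrimitiveExist

open Pool.Agent.MP_4f0bc7_gt

/-- The differentials `q_j = c_j (dφ)^j` with `φ` and `φ' = f` holomorphic and nowhere zero on an
open set `U`, every rank, `c ≠ 0`: a harmonic metric exists, whatever the eigenvalues of `θ(c)`. -/
theorem result (n : ℕ) (c : ℕ → ℂ) (U : Set ℂ) (φ f : ℂ → ℂ) (hU : IsOpen U)
    (hφ : ∀ z ∈ U, HasDerivAt φ (f z) z ∧ φ z ≠ 0 ∧ f z ≠ 0)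
    (hc : ∃ j, 2 ≤ j ∧ j ≤ n ∧ c j ≠ 0) :
    ∃ H, IsHarmonicMetric U (fun z => hitchin n fun j => c j * f z ^ j) H :=
  Od.open_Main Od.core Od.sNil Od.sStab1 (Od.sRad Od.b2 Od.cpt) (Od.sGau Od.b2) n c U φ f hU hφ hc

end Pool.Agent.Results.MP_4f0bc7_gt.PrimitiveExist
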